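import Pool.Agent.Y978.SKX.Nice

/-! The energy identity in `ℝ³` (job SKX-ENER, for helper303). -/

open Set Filter Topology MeasureTheory Metric

set_option autoImplicit false

namespace Pool.Agent.Y978.SKX

open Pool.Agent.Y5 (E3)
open Pool.Agent.Y303.SK
open Pool.Agent.Y500.SK

theorem sol_nice {ι : Type} {ν : ℝ} {e : ι → E3 → E3} {σ : ι → ι} {s : ι → ℝ} {T : ℝ}
    {u : ℝ → E3 → E3} (hu : SolX ν e σ s T u) : ∀ t ∈ Ico 0 T, Nice (u t) := by
  intro t ht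
  have hT' : (t + T) / 2 < T := by linarith [ht.2]
  have htm : t ∈ Icc 0 ((t + T) / 2) := ⟨ht.1, by linarith [ht.2]⟩
  obtain ⟨M0, h0⟩ := hu.bdd 0 _ hT'
  obtain ⟨M1, h1⟩ := hu.bdd 1 _ hT'
  obtain ⟨M2, h2⟩ := hu.bdd 2 _ hT'
  have n2 : ∀ x, ‖iteratedFDeriv ℝ 2 (u t) x‖ = ‖fderiv ℝ (fderiv ℝ (u t)) x‖ := fun x => by
    rw [← norm_iteratedFDeriv_fderiv, norm_iteratedFDeriv_one]
  refine ⟨hu.smooth t ht, ⟨M0, fun x => ?_⟩, ⟨M1, fun x => ?_⟩, ?_, ?_, ?_⟩
  · simpa using (h0 t htm).1 x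
  · simpa [norm_iteratedFDeriv_one] using (h1 t htm).1 x
  · simpa using (h0 t htm).2.1
  · simpa [norm_iteratedFDeriv_one] using (h1 t htm).2.1
  · simpa [n2] using (h2 t htm).2.1

theorem parsevalX {ι : Type} {e : ι → E3 → E3} {σ : ι → ι} {s : ι → ℝ} (hd : S_DENSR)
    (hS : SkewX e σ s) (v f : E3 → E3) (hv : Nice v) (ha : Axi v) (hdv : ∀ x, dvg v x = 0)
    (hf : MemLp f 2 volume) :
    HasSum (fun i => ipr v (e i) * ipr f (e i)) (ipr v f) := by
  have he : ∀ i, MemLp (e i) 2 volume := fun i => CS.memLp (hS.field i)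
  have ho : Orthonormal ℝ (fun i => (he i).toLp (e i)) := by
    classical
    rw [orthonormal_iff_ite]
    intro i j
    rw [inner_toLp]
    split_ifs with h
    · exact (hS.orth i j).1 h
    · exact (hS.orth i j).2 h
  have happ : ∀ ε > 0, ∃ (F : Finset ι) (b : ι → ℝ),
      ‖hv.memLp.toLp v - ∑ a ∈ F, b a • (he a).toLp (e a)‖ < ε := by
    intro ε hε
    obtain ⟨w, hw, hwa, h1⟩ := hd v hv.sm ha hdv hv.i0 ((ε / 2) ^ 2) (by positivity)
    obtain ⟨F, b, h2⟩ := hS.compl w hw hwa ((ε / 2) ^ 2) (by positivity)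
    refine ⟨F, b, ?_⟩
    have hwm := CS.memLp hw
    have h3 : ‖hv.memLp.toLp v - hwm.toLp w‖ < ε / 2 := by
      have h4 : ‖hv.memLp.toLp v - hwm.toLp w‖ ^ 2 < (ε / 2) ^ 2 := by
        rw [← MemLp.toLp_sub, norm_sq_toLp]
        exact h1
      exact lt_of_pow_lt_pow_left₀ 2 (by positivity) h4
    have h5 : ‖hwm.toLp w - ∑ a ∈ F, b a • (he a).toLp (e a)‖ < ε / 2 := by
      have h4 : ‖hwm.toLp w - ∑ a ∈ F, b a • (he a).toLp (e a)‖ ^ 2 < (ε / 2) ^ 2 := by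
        rw [← toLp_sum, ← MemLp.toLp_sub, norm_sq_toLp]
        exact h2
      exact lt_of_pow_lt_pow_left₀ 2 (by positivity) h4
    calc _ = ‖(hv.memLp.toLp v - hwm.toLp w) +
            (hwm.toLp w - ∑ a ∈ F, b a • (he a).toLp (e a))‖ := by
          congr 1; abel
      _ ≤ ‖hv.memLp.toLp v - hwm.toLp w‖ + ‖hwm.toLp w - ∑ a ∈ F, b a • (he a).toLp (e a)‖ :=
          norm_add_le _ _
      _ < ε := by linarith
  have h1 := hasSum_of_approx _ ho _ happ
  have h2 := h1.mapL (innerSL ℝ (hf.toLp f))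
  simp only [innerSL_apply_apply, inner_smul_right, inner_toLp] at h2
  rw [ipr_comm v f]
  have h3 : (fun i => ipr v (e i) * ipr f (e i)) = fun b => ipr (e b) v * ipr f (e b) := by
    funext i; rw [ipr_comm v (e i)]
  rw [h3]; exact h2

theorem t_ENERR (hd : S_DENSR) : S_ENERR := by
  intro ν ι e σ s T u hS hu hbd t ht
  set T' := (t + T) / 2 with hT'
  have hT1 : T' < T := by rw [hT']; linarith [ht.2]
  have hT2 : t < T' := by rw [hT']; linarith [ht.2]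
  obtain ⟨b, hbs, hbb⟩ := hbd T' hT1
  obtain ⟨M0, hM0⟩ := hu.bdd 0 T' hT1
  obtain ⟨M1, hM1⟩ := hu.bdd 1 T' hT1
  obtain ⟨M2, hM2⟩ := hu.bdd 2 T' hT1
  have hn := sol_nice hu
  have n2 : ∀ τ x, ‖iteratedFDeriv ℝ 2 (u τ) x‖ = ‖fderiv ℝ (fderiv ℝ (u τ)) x‖ := fun τ x => by
    rw [← norm_iteratedFDeriv_fderiv, norm_iteratedFDeriv_one]
  have hc2 : ∀ τ ∈ Ico 0 T, ContDiff ℝ 2 (u τ) := fun τ hτ => (hn τ hτ).c2
  -- the reduced right-hand side
  set g : ι → ℝ → ℝ := fun i τ => -(ν * dirf (u τ) (e i)) - adv (u τ) (u τ) (e i) with hg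
  set z : ι → ℝ → ℝ := fun i τ => ipr (u τ) (e i) with hz
  have hzd : ∀ i, ∀ τ ∈ Ico 0 T, HasDerivWithinAt (z i) (s i * z (σ i) τ + g i τ) (Ico 0 T) τ := by
    intro i τ hτ
    refine (hu.eqn i τ hτ).congr_deriv ?_
    simp only [hz, hg]; ring
  set W : ι → ℝ → ℝ := fun i τ => (z i τ ^ 2 + z (σ i) τ ^ 2) / 2 with hW
  set W' : ι → ℝ → ℝ := fun i τ => z i τ * g i τ + z (σ i) τ * g (σ i) τ with hW'
  have hWd : ∀ i, ∀ τ ∈ Ico 0 T, HasDerivWithinAt (W i) (W' i τ) (Ico 0 T) τ := by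
    intro i τ hτ
    have h1 := ((hzd i τ hτ).pow 2).add ((hzd (σ i) τ hτ).pow 2)
    have h2 := h1.div_const 2
    refine h2.congr_deriv ?_
    simp only [hW', hS.inv i, hS.skew i]
    push_cast
    ring
  -- bounds
  have hen : ∀ i, ∫ x, ‖e i x‖ ^ 2 ≤ 1 := by
    intro i
    have := (hS.orth i i).1 rfl
    unfold ipr at this
    simp only [real_inner_self_eq_norm_sq] at this
    exact this.le
  have hdl : ∀ i, ∀ τ ∈ Ico 0 T, dirf (u τ) (e i) = -ipr (lap (u τ)) (e i) := fun i τ hτ =>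
    dirf_eq (u τ) (e i) (hc2 τ hτ) (contDiff_infty.1 (hS.field i).smooth 1)
      (hS.field i).cpt
  set A := 3 ^ 2 * max M2 0 with hA
  set B := M0 ^ 2 * max M1 0 with hB
  have hA0 : 0 ≤ A := by rw [hA]; positivity
  have hB0 : 0 ≤ B := by rw [hB]; positivity
  have hgb : ∀ i, ∀ τ ∈ Icc 0 T', |g i τ| ≤ |ν| * ((A + 1) / 2) + (B + 1) / 2 := by
    intro i τ hτ
    have hτ' : τ ∈ Ico 0 T := ⟨hτ.1, hτ.2.trans_lt hT1⟩
    have hnτ := hn τ hτ'
    have k2 : ∫ x, ‖fderiv ℝ (fderiv ℝ (u τ)) x‖ ^ 2 ≤ max M2 0 := by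
      have := (hM2 τ hτ).2.2
      simp only [n2] at this
      exact this.trans (le_max_left _ _)
    have k1 : ∫ x, ‖fderiv ℝ (u τ) x‖ ^ 2 ≤ max M1 0 := by
      have := (hM1 τ hτ).2.2
      simp only [norm_iteratedFDeriv_one] at this
      exact this.trans (le_max_left _ _)
    have k0 : ∀ x, ‖u τ x‖ ≤ M0 := fun x => by simpa using (hM0 τ hτ).1 x
    have h1 : |ipr (lap (u τ)) (e i)| ≤ (A + 1) / 2 := by
      refine ipr_le _ _ _ _ hnτ.lap_int.1 (CS.sq_int (hS.field i)) (hnτ.lap_int.2.trans ?_) (hen i)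
      rw [hA]
      exact mul_le_mul_of_nonneg_left k2 (by norm_num)
    have h2 : |adv (u τ) (u τ) (e i)| ≤ (B + 1) / 2 := by
      have h3 := hnτ.adv_int M0 k0
      refine ipr_le (fun x => fderiv ℝ (u τ) x (u τ x)) _ _ _ h3.1 (CS.sq_int (hS.field i))
        (h3.2.trans ?_) (hen i)
      rw [hB]
      exact mul_le_mul_of_nonneg_left k1 (by positivity)
    simp only [hg]
    rw [hdl i τ hτ']
    calc _ ≤ |-(ν * -ipr (lap (u τ)) (e i))| + |adv (u τ) (u τ) (e i)| := abs_sub _ _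
      _ = |ν| * |ipr (lap (u τ)) (e i)| + |adv (u τ) (u τ) (e i)| := by
          rw [abs_neg, abs_mul, abs_neg]
      _ ≤ _ := by gcongr
  set Q := |ν| * ((A + 1) / 2) + (B + 1) / 2 with hQ
  have hQ0 : 0 ≤ Q := by rw [hQ]; positivity
  -- the involution
  let S : ι ≃ ι := ⟨σ, σ, hS.inv, hS.inv⟩
  have hSσ : ∀ i, S i = σ i := fun _ => rfl
  have hbσ : Summable (fun i => b (σ i)) := (S.summable_iff (f := b)).2 hbs
  have hWb : ∀ i, ∀ τ ∈ Icc 0 T', |W' i τ| ≤ Q * (b i + b (σ i)) := by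
    intro i τ hτ
    have h1 := hbb τ hτ i
    have h2 := hbb τ hτ (σ i)
    have h3 := hgb i τ hτ
    have h4 := hgb (σ i) τ hτ
    have hb0 : 0 ≤ b i := (abs_nonneg _).trans h1
    have hb1 : 0 ≤ b (σ i) := (abs_nonneg _).trans h2
    calc |W' i τ| ≤ |z i τ * g i τ| + |z (σ i) τ * g (σ i) τ| := abs_add_le _ _
      _ = |z i τ| * |g i τ| + |z (σ i) τ| * |g (σ i) τ| := by rw [abs_mul, abs_mul]
      _ ≤ b i * Q + b (σ i) * Q := by gcongr
      _ = _ := by ring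
  have hsum : ∀ τ ∈ Ico 0 T, HasSum (fun i => W i τ) (ipr (u τ) (u τ)) := by
    intro τ hτ
    have h1 := parsevalX hd hS (u τ) (u τ) (hn τ hτ) (hu.axi τ hτ) (hu.dv τ hτ) (hn τ hτ).memLp
    have h2 : HasSum (fun i => ipr (u τ) (e (σ i)) * ipr (u τ) (e (σ i))) (ipr (u τ) (u τ)) :=
      (S.hasSum_iff (f := fun i => ipr (u τ) (e i) * ipr (u τ) (e i))).2 h1
    have h3 := (h1.add h2).div_const 2
    have h4 : (fun i => W i τ) = fun i => (ipr (u τ) (e i) * ipr (u τ) (e i) +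
        ipr (u τ) (e (σ i)) * ipr (u τ) (e (σ i))) / 2 := by
      funext i; simp only [hW, hz]; ring
    rw [h4]
    have h5 : ipr (u τ) (u τ) = (ipr (u τ) (u τ) + ipr (u τ) (u τ)) / 2 := by ring
    rw [h5]; exact h3
  have key := series_deriv W W' (fun i => Q * (b i + b (σ i))) T T' t
    ((hbs.add hbσ).mul_left Q) hWd hT1 hWb ⟨ht.1, hT2⟩ (hsum t ht).summable
  -- the value of the derivative
  have hval : HasSum (fun i => W' i t) (-(2 * (ν * dirf (u t) (u t)))) := by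
    have hnt := hn t ht
    have e1 := parsevalX hd hS (u t) (lap (u t)) hnt (hu.axi t ht) (hu.dv t ht) hnt.lap_memLp
    have e2 := parsevalX hd hS (u t) (fun x => fderiv ℝ (u t) x (u t x)) hnt (hu.axi t ht)
      (hu.dv t ht) hnt.adv_memLp
    have e3 : ipr (u t) (lap (u t)) = -dirf (u t) (u t) := by
      rw [ipr_comm, hnt.dirf_self]; ring
    have e4 : ipr (u t) (fun x => fderiv ℝ (u t) x (u t x)) = 0 := by
      rw [ipr_comm]; exact hnt.adv_self (hu.dv t ht)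
    rw [e3] at e1
    rw [e4] at e2
    have e5 : HasSum (fun i => z i t * g i t) (-(ν * dirf (u t) (u t))) := by
      have h1 := (e1.mul_left ν).sub e2
      have h2 : (fun i => z i t * g i t) = fun i => ν * (ipr (u t) (e i) * ipr (lap (u t)) (e i)) -
          ipr (u t) (e i) * ipr (fun x => fderiv ℝ (u t) x (u t x)) (e i) := by
        funext i
        simp only [hg, hz]
        rw [hdl i t ht]
        show ipr (u t) (e i) * (-(ν * -ipr (lap (u t)) (e i)) -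
          ipr (fun x => fderiv ℝ (u t) x (u t x)) (e i)) = _
        ring
      rw [h2]
      have h3 : -(ν * dirf (u t) (u t)) = ν * -dirf (u t) (u t) - 0 := by ring
      rw [h3]; exact h1
    have e6 : HasSum (fun i => z (σ i) t * g (σ i) t) (-(ν * dirf (u t) (u t))) :=
      (S.hasSum_iff (f := fun i => z i t * g i t)).2 e5
    have h4 := e5.add e6
    have h5 : -(2 * (ν * dirf (u t) (u t))) = -(ν * dirf (u t) (u t)) +
      -(ν * dirf (u t) (u t)) := by ring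
    rw [h5]; exact h4
  rw [hval.tsum_eq] at key
  refine key.congr (fun τ hτ => ?_) ?_
  · exact (hsum τ hτ).tsum_eq.symm
  · exact (hsum t ht).tsum_eq.symm

end Pool.Agent.Y978.SKX
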