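import Pool.Agent.Y500.SK.Ener
import Pool.Agent.Y303.SK.XDefs

/-! Integration by parts for fields in `H²(ℝ³)` (job SKX-ENER, for helper303). -/

open Set Filter Topology MeasureTheory Metric

set_option autoImplicit false

namespace Pool.Agent.Y978.SKX

open Pool.Agent.Y5 (E3)
open Pool.Agent.Y303.SK
open Pool.Agent.Y500.SK

theorem norm_cv (i : Fin 3) : ‖(cv i : E3)‖ = 1 := by simp [cv]

theorem int_inner (f g : E3 → E3) (hf : Continuous f) (hg : Continuous g)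
    (h1 : Integrable (fun x => ‖f x‖ ^ 2)) (h2 : Integrable (fun x => ‖g x‖ ^ 2)) :
    Integrable (fun x => inner ℝ (f x) (g x)) := by
  refine Integrable.mono' ((h1.add h2).div_const 2) (hf.inner hg).aestronglyMeasurable
    (ae_of_all _ fun x => ?_)
  have h3 : ‖inner ℝ (f x) (g x)‖ ≤ ‖f x‖ * ‖g x‖ := norm_inner_le_norm _ _
  show _ ≤ (‖f x‖ ^ 2 + ‖g x‖ ^ 2) / 2
  nlinarith [sq_nonneg (‖f x‖ - ‖g x‖)]

theorem ipr_le (f g : E3 → E3) (A B : ℝ) (h1 : Integrable (fun x => ‖f x‖ ^ 2))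
    (h2 : Integrable (fun x => ‖g x‖ ^ 2)) (hA : ∫ x, ‖f x‖ ^ 2 ≤ A) (hB : ∫ x, ‖g x‖ ^ 2 ≤ B) :
    |ipr f g| ≤ (A + B) / 2 := by
  have h3 : ∀ x, ‖inner ℝ (f x) (g x)‖ ≤ (‖f x‖ ^ 2 + ‖g x‖ ^ 2) / 2 := by
    intro x
    have h3 : ‖inner ℝ (f x) (g x)‖ ≤ ‖f x‖ * ‖g x‖ := norm_inner_le_norm _ _
    nlinarith [sq_nonneg (‖f x‖ - ‖g x‖)]
  have h4 := norm_integral_le_of_norm_le ((h1.add h2).div_const 2) (Eventually.of_forall h3)
  have h5 : ∫ x, (‖f x‖ ^ 2 + ‖g x‖ ^ 2) / 2 = ((∫ x, ‖f x‖ ^ 2) + ∫ x, ‖g x‖ ^ 2) / 2 := by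
    rw [integral_div, integral_add h1 h2]
  refine h4.trans ?_
  have h6 : ∫ x, ((fun x => ‖f x‖ ^ 2) + fun x => ‖g x‖ ^ 2) x / 2 =
      ∫ x, (‖f x‖ ^ 2 + ‖g x‖ ^ 2) / 2 := rfl
  rw [h6, h5]
  linarith

theorem int_dom {F : Type*} [NormedAddCommGroup F] {G : Type*} [NormedAddCommGroup G]
    (f : E3 → F) (g : E3 → G) (C : ℝ) (hf : Continuous f)
    (h : ∀ x, ‖f x‖ ≤ C * ‖g x‖) (hg : Integrable (fun x => ‖g x‖ ^ 2)) :
    Integrable (fun x => ‖f x‖ ^ 2) ∧ ∫ x, ‖f x‖ ^ 2 ≤ C ^ 2 * ∫ x, ‖g x‖ ^ 2 := by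
  have h1 : ∀ x, ‖f x‖ ^ 2 ≤ C ^ 2 * ‖g x‖ ^ 2 := fun x => by
    rw [← mul_pow]
    exact pow_le_pow_left₀ (norm_nonneg _) (h x) 2
  have h2 : Integrable (fun x => ‖f x‖ ^ 2) := by
    refine Integrable.mono' (hg.const_mul (C ^ 2)) (hf.norm.pow 2).aestronglyMeasurable
      (ae_of_all _ fun x => ?_)
    rw [Real.norm_of_nonneg (by positivity)]
    exact h1 x
  refine ⟨h2, ?_⟩
  rw [← integral_const_mul]
  exact integral_mono h2 (hg.const_mul _) h1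

/-- fields in `H²` with bounded derivatives -/
structure Nice (u : E3 → E3) : Prop where
  sm : ContDiff ℝ (⊤ : ℕ∞) u
  b0 : ∃ M, ∀ x, ‖u x‖ ≤ M
  b1 : ∃ M, ∀ x, ‖fderiv ℝ u x‖ ≤ M
  i0 : Integrable (fun x => ‖u x‖ ^ 2)
  i1 : Integrable (fun x => ‖fderiv ℝ u x‖ ^ 2)
  i2 : Integrable (fun x => ‖fderiv ℝ (fderiv ℝ u) x‖ ^ 2)

section

variable {u : E3 → E3}

theorem Nice.c2 (h : Nice u) : ContDiff ℝ 2 u := contDiff_infty.1 h.sm 2

theorem Nice.c1 (h : Nice u) : ContDiff ℝ 1 u := contDiff_infty.1 h.sm 1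

theorem Nice.cf (h : Nice u) : ContDiff ℝ 1 (fderiv ℝ u) := h.c2.fderiv_right (by norm_num)

theorem Nice.k0 (h : Nice u) : Continuous u := h.sm.continuous

theorem Nice.k1 (h : Nice u) : Continuous (fderiv ℝ u) := h.cf.continuous

theorem Nice.k2 (h : Nice u) : Continuous (fderiv ℝ (fderiv ℝ u)) :=
  h.cf.continuous_fderiv (by norm_num)

theorem fd_le (x : E3) (i : Fin 3) : ‖fderiv ℝ u x (cv i)‖ ≤ 1 * ‖fderiv ℝ u x‖ := by
  calc _ ≤ ‖fderiv ℝ u x‖ * ‖(cv i : E3)‖ := ContinuousLinearMap.le_opNorm _ _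
    _ = _ := by rw [norm_cv]; ring

theorem fd2_le (x : E3) (i : Fin 3) :
    ‖fderiv ℝ (fderiv ℝ u) x (cv i) (cv i)‖ ≤ 1 * ‖fderiv ℝ (fderiv ℝ u) x‖ := by
  calc _ ≤ ‖fderiv ℝ (fderiv ℝ u) x (cv i)‖ * ‖(cv i : E3)‖ :=
        ContinuousLinearMap.le_opNorm _ _
    _ ≤ (‖fderiv ℝ (fderiv ℝ u) x‖ * ‖(cv i : E3)‖) * ‖(cv i : E3)‖ := by
        gcongr; exact ContinuousLinearMap.le_opNorm _ _
    _ = _ := by rw [norm_cv]; ring

theorem Nice.j1 (h : Nice u) (i : Fin 3) : Integrable (fun x => ‖fderiv ℝ u x (cv i)‖ ^ 2) :=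
  (int_dom _ (fderiv ℝ u) 1 (h.k1.clm_apply continuous_const) (fun x => fd_le x i) h.i1).1

theorem Nice.j2 (h : Nice u) (i : Fin 3) :
    Integrable (fun x => ‖fderiv ℝ (fderiv ℝ u) x (cv i) (cv i)‖ ^ 2) :=
  (int_dom _ (fderiv ℝ (fderiv ℝ u)) 1
    ((h.k2.clm_apply continuous_const).clm_apply continuous_const) (fun x => fd2_le x i) h.i2).1

theorem Nice.memLp (h : Nice u) : MemLp u 2 volume :=
  (memLp_two_iff_integrable_sq_norm h.k0.aestronglyMeasurable).2 h.i0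

theorem Nice.lap_int (h : Nice u) : Integrable (fun x => ‖lap u x‖ ^ 2) ∧
    ∫ x, ‖lap u x‖ ^ 2 ≤ 3 ^ 2 * ∫ x, ‖fderiv ℝ (fderiv ℝ u) x‖ ^ 2 :=
  int_dom _ (fderiv ℝ (fderiv ℝ u)) 3 (lap_cont h.c2) (fun x => lap_le x _ le_rfl) h.i2

theorem Nice.lap_memLp (h : Nice u) : MemLp (lap u) 2 volume :=
  (memLp_two_iff_integrable_sq_norm (lap_cont h.c2).aestronglyMeasurable).2 h.lap_int.1

theorem Nice.adv_int (h : Nice u) (M : ℝ) (hM : ∀ x, ‖u x‖ ≤ M) :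
    Integrable (fun x => ‖fderiv ℝ u x (u x)‖ ^ 2) ∧
    ∫ x, ‖fderiv ℝ u x (u x)‖ ^ 2 ≤ M ^ 2 * ∫ x, ‖fderiv ℝ u x‖ ^ 2 :=
  int_dom _ (fderiv ℝ u) M (h.k1.clm_apply h.k0) (fun x => by
    calc _ ≤ ‖fderiv ℝ u x‖ * ‖u x‖ := ContinuousLinearMap.le_opNorm _ _
      _ ≤ ‖fderiv ℝ u x‖ * M := by gcongr; exact hM x
      _ = _ := by ring) h.i1

theorem Nice.adv_memLp (h : Nice u) : MemLp (fun x => fderiv ℝ u x (u x)) 2 volume := by
  obtain ⟨M, hM⟩ := h.b0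
  exact (memLp_two_iff_integrable_sq_norm
    (h.k1.clm_apply h.k0).aestronglyMeasurable).2 (h.adv_int M hM).1

/-- `∫ |∇u|² = - ∫ Δu · u` -/
theorem Nice.dirf_self (h : Nice u) : dirf u u = -ipr (lap u) u := by
  have i1 : ∀ i : Fin 3, Integrable (fun x => inner ℝ (fderiv ℝ u x (cv i))
      (fderiv ℝ u x (cv i))) := fun i =>
    int_inner _ _ (h.k1.clm_apply continuous_const) (h.k1.clm_apply continuous_const)
      (h.j1 i) (h.j1 i)
  have i2 : ∀ i : Fin 3, Integrable (fun x => inner ℝ (fderiv ℝ (fderiv ℝ u) x (cv i) (cv i))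
      (u x)) := fun i =>
    int_inner _ _ ((h.k2.clm_apply continuous_const).clm_apply continuous_const) h.k0
      (h.j2 i) h.i0
  have i3 : ∀ i : Fin 3, Integrable (fun x => inner ℝ (fderiv ℝ u x (cv i)) (u x)) := fun i =>
    int_inner _ _ (h.k1.clm_apply continuous_const) h.k0 (h.j1 i) h.i0
  have key : ∀ i : Fin 3, ∫ x, inner ℝ (fderiv ℝ u x (cv i)) (fderiv ℝ u x (cv i)) =
      -∫ x, inner ℝ (fderiv ℝ (fderiv ℝ u) x (cv i) (cv i)) (u x) := by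
    intro i
    have hd : ∀ x, HasFDerivAt (fun x => fderiv ℝ u x (cv i))
        ((fderiv ℝ (fderiv ℝ u) x).flip (cv i)) x := by
      intro x
      have h1 := ((h.cf.differentiable (by norm_num)) x).hasFDerivAt
      have h2 := h1.clm_apply (hasFDerivAt_const (cv i) x)
      refine h2.congr_fderiv ?_
      ext v
      simp
    have := integral_bilinear_hasFDerivAt_right_eq_neg_left_of_integrable
      (μ := (volume : Measure E3)) (f := fun x => fderiv ℝ u x (cv i))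
      (f' := fun x => (fderiv ℝ (fderiv ℝ u) x).flip (cv i)) (g := u) (g' := fderiv ℝ u)
      (v := cv i) (B := innerSL ℝ) (i2 i) (i1 i)
      (i3 i) (fun x _ => hd x)
      (fun x _ => (h.c1.differentiable (by norm_num) x).hasFDerivAt)
    exact this
  unfold dirf ipr lap
  rw [integral_finsetSum _ fun i _ => i1 i]
  simp only [key, sum_inner]
  rw [integral_finsetSum _ fun i _ => i2 i, Finset.sum_neg_distrib]

theorem coord_le (y : E3) (i : Fin 3) : ‖y i‖ ≤ ‖y‖ := PiLp.norm_apply_le y i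

/-- `∫ (u·∇)u · u = 0` -/
theorem Nice.adv_self (h : Nice u) (hdiv : ∀ x, dvg u x = 0) : adv u u u = 0 := by
  obtain ⟨M, hM⟩ := h.b0
  obtain ⟨M₁, hM₁⟩ := h.b1
  have huc0 : Continuous u := h.k0
  have huc1 : Continuous (fderiv ℝ u) := h.k1
  have hM0 : 0 ≤ M := (norm_nonneg _).trans (hM 0)
  have hM10 : 0 ≤ M₁ := (norm_nonneg _).trans (hM₁ 0)
  have hud : ∀ x, HasFDerivAt u (fderiv ℝ u x) x := fun x =>
    (h.c1.differentiable (by norm_num) x).hasFDerivAt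
  have hcoord : ∀ i : Fin 3, Continuous (fun x => u x i) := fun i =>
    (EuclideanSpace.proj i).continuous.comp huc0
  have hcoord1 : ∀ i j : Fin 3, Continuous (fun x => (fderiv ℝ u x (cv j)) i) := fun i j =>
    (EuclideanSpace.proj i).continuous.comp (huc1.clm_apply continuous_const)
  have i1 : ∀ i : Fin 3, Integrable (fun x => (fderiv ℝ u x (cv i)) i * (‖u x‖ ^ 2)) := fun i => by
    refine Integrable.mono' (h.i0.const_mul M₁)
      ((hcoord1 i i).mul (huc0.norm.pow 2)).aestronglyMeasurable (ae_of_all _ fun x => ?_)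
    rw [norm_mul, Real.norm_of_nonneg (show 0 ≤ ‖u x‖ ^ 2 by positivity)]
    have h1 : ‖(fderiv ℝ u x (cv i)) i‖ ≤ M₁ :=
      ((coord_le _ i).trans (fd_le x i)).trans (by rw [one_mul]; exact hM₁ x)
    exact mul_le_mul_of_nonneg_right h1 (by positivity)
  have i2 : ∀ i : Fin 3, Integrable (fun x => u x i * (2 * inner ℝ (u x)
      (fderiv ℝ u x (cv i)))) := fun i => by
    refine Integrable.mono' ((h.i0.add (h.j1 i)).const_mul M)
      ((hcoord i).mul (continuous_const.mul (huc0.inner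
      (huc1.clm_apply continuous_const)))).aestronglyMeasurable (ae_of_all _ fun x => ?_)
    rw [norm_mul, norm_mul]
    have h1 : ‖u x i‖ ≤ M := (coord_le _ i).trans (hM x)
    have h2 : ‖inner ℝ (u x) (fderiv ℝ u x (cv i))‖ ≤ ‖u x‖ * ‖fderiv ℝ u x (cv i)‖ :=
      norm_inner_le_norm _ _
    have h3 : ‖(2 : ℝ)‖ * ‖inner ℝ (u x) (fderiv ℝ u x (cv i))‖ ≤
        ‖u x‖ ^ 2 + ‖fderiv ℝ u x (cv i)‖ ^ 2 := by
      rw [Real.norm_of_nonneg (by norm_num : (0 : ℝ) ≤ 2)]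
      nlinarith [sq_nonneg (‖u x‖ - ‖fderiv ℝ u x (cv i)‖)]
    exact mul_le_mul h1 h3 (by positivity) hM0
  have i3 : ∀ i : Fin 3, Integrable (fun x => u x i * (‖u x‖ ^ 2)) := fun i => by
    refine Integrable.mono' (h.i0.const_mul M)
      ((hcoord i).mul (huc0.norm.pow 2)).aestronglyMeasurable (ae_of_all _ fun x => ?_)
    rw [norm_mul, Real.norm_of_nonneg (show 0 ≤ ‖u x‖ ^ 2 by positivity)]
    exact mul_le_mul_of_nonneg_right ((coord_le _ i).trans (hM x)) (by positivity)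
  have key : ∀ i : Fin 3, ∫ x, u x i * (2 * inner ℝ (u x) (fderiv ℝ u x (cv i))) =
      -∫ x, (fderiv ℝ u x (cv i)) i * (‖u x‖ ^ 2) := by
    intro i
    have hd1 : ∀ x, HasFDerivAt (fun x => u x i)
        ((EuclideanSpace.proj i : E3 →L[ℝ] ℝ).comp (fderiv ℝ u x)) x := fun x =>
      (EuclideanSpace.proj i : E3 →L[ℝ] ℝ).hasFDerivAt.comp x (hud x)
    have hd2 : ∀ x, HasFDerivAt (fun x => ‖u x‖ ^ 2)
        (2 • (innerSL ℝ (u x)).comp (fderiv ℝ u x)) x := fun x => (hud x).norm_sq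
    have := integral_bilinear_hasFDerivAt_right_eq_neg_left_of_integrable
      (μ := (volume : Measure E3)) (f := fun x => u x i)
      (f' := fun x => (EuclideanSpace.proj i : E3 →L[ℝ] ℝ).comp (fderiv ℝ u x))
      (g := fun x => ‖u x‖ ^ 2) (g' := fun x => 2 • (innerSL ℝ (u x)).comp (fderiv ℝ u x))
      (v := cv i) (B := ContinuousLinearMap.mul ℝ ℝ) (by simpa using i1 i) (by simpa using i2 i)
      (by simpa using i3 i) (fun x _ => hd1 x) (fun x _ => hd2 x)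
    simpa using this
  have h1 : ∀ x, inner ℝ (fderiv ℝ u x (u x)) (u x) =
      1 / 2 * ∑ i : Fin 3, u x i * (2 * inner ℝ (u x) (fderiv ℝ u x (cv i))) := by
    intro x
    have h2 : fderiv ℝ u x (u x) = ∑ i : Fin 3, u x i • fderiv ℝ u x (cv i) := by
      conv_lhs => rw [expand (u x)]
      rw [map_sum]
      exact Finset.sum_congr rfl fun i _ => by rw [map_smul]
    rw [h2, sum_inner, Finset.mul_sum]
    refine Finset.sum_congr rfl fun i _ => ?_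
    rw [real_inner_smul_left, real_inner_comm]
    ring
  unfold adv
  simp only [h1]
  rw [integral_const_mul, integral_finsetSum _ fun i _ => i2 i]
  simp only [key]
  rw [Finset.sum_neg_distrib, ← integral_finsetSum _ fun i _ => i1 i]
  have h2 : ∀ x, ∑ i : Fin 3, (fderiv ℝ u x (cv i)) i * (‖u x‖ ^ 2) = 0 := by
    intro x
    rw [← Finset.sum_mul]
    have := hdiv x
    unfold dvg at this
    rw [this, zero_mul]
  simp only [h2]
  simp

end

end Pool.Agent.Y978.SKX
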